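import Mathlib
import Pool.Agent.L0h94.RZ.Defs

/-! Project RZ, part IND: preliminaries and the case `K = 0` -/

set_option autoImplicit false

namespace Pool.Agent.L0h94.RZ

open Finset Pool.Agent.W262.RK

namespace Ind

/-! ### tuples -/

lemma prime_dvd_PP {z y p : ℕ} (hp : p.Prime) : p ∣ PP z y ↔ z < p ∧ p ≤ y := by
  unfold PP
  rw [hp.prime.dvd_finsetProd_iff]
  constructor
  · rintro ⟨q, hq, h⟩
    simp only [PS, mem_filter, mem_Ioc] at hq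
    have := (Nat.prime_dvd_prime_iff_eq hp hq.2).1 h
    subst this
    exact hq.1
  · intro h
    exact ⟨p, by simp only [PS, mem_filter, mem_Ioc]; exact ⟨h, hp⟩, dvd_rfl⟩

lemma PP_sqf (z y : ℕ) : Squarefree (PP z y) := by
  unfold PP
  have : ∀ S : Finset ℕ, (∀ p ∈ S, p.Prime) → Squarefree (∏ p ∈ S, p) := by
    intro S
    induction S using Finset.induction_on with
    | empty => intro _; simp
    | insert a S ha ih =>
      intro h
      rw [prod_insert ha, Nat.squarefree_mul]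
      · exact ⟨(h a (mem_insert_self _ _)).prime.squarefree,
          ih (fun p hp => h p (mem_insert_of_mem hp))⟩
      · refine Nat.Coprime.prod_right (fun q hq => ?_)
        exact (Nat.coprime_primes (h a (mem_insert_self _ _)) (h q (mem_insert_of_mem hq))).2
          (fun e => ha (e ▸ hq))
  exact this _ (fun p hp => (mem_filter.1 hp).2)

lemma PP_ne (z y : ℕ) : PP z y ≠ 0 := (PP_sqf z y).ne_zero

lemma Tup_iff {z y : ℕ} {s : Fin 3 → ℕ} : s ∈ Tup (Fin 3) z y ↔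
    (∀ i, s i ∣ PP z y) ∧ ∀ i j, i ≠ j → (s i).Coprime (s j) := by
  unfold Tup
  simp only [mem_filter, Fintype.mem_piFinset, Nat.mem_divisors, PP_ne, ne_eq, not_false_eq_true,
    and_true]

lemma sqf_of_Tup {z y : ℕ} {s : Fin 3 → ℕ} (h : s ∈ Tup (Fin 3) z y) :
    Squarefree (∏ i, s i) := by
  obtain ⟨h1, h2⟩ := Tup_iff.1 h
  rw [Fin.prod_univ_three]
  rw [Nat.squarefree_mul, Nat.squarefree_mul (h2 0 1 (by decide))]
  · exact ⟨⟨(PP_sqf _ _).squarefree_of_dvd (h1 0), (PP_sqf _ _).squarefree_of_dvd (h1 1)⟩,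
      (PP_sqf _ _).squarefree_of_dvd (h1 2)⟩
  · exact Nat.Coprime.mul_left (h2 0 2 (by decide)) (h2 1 2 (by decide))

lemma ne_zero_of_Tup {z y : ℕ} {s : Fin 3 → ℕ} (h : s ∈ Tup (Fin 3) z y) (i : Fin 3) :
    s i ≠ 0 := fun h0 => PP_ne z y (Nat.eq_zero_of_zero_dvd (h0 ▸ (Tup_iff.1 h).1 i))

lemma bd_of_Tup {z y : ℕ} {s : Fin 3 → ℕ} (h : s ∈ Tup (Fin 3) z y) {p : ℕ}
    (hp : p ∈ (∏ i, s i).primeFactors) : p.Prime ∧ z < p ∧ p ≤ y := by
  have hp' := Nat.prime_of_mem_primeFactors hp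
  obtain ⟨i, _, hi⟩ := (hp'.prime.dvd_finsetProd_iff _).1 (Nat.dvd_of_mem_primeFactors hp)
  exact ⟨hp', (prime_dvd_PP hp').1 (hi.trans ((Tup_iff.1 h).1 i))⟩

lemma St_of_Tup {y : ℕ} {s : Fin 3 → ℕ} (h : s ∈ Tup (Fin 3) 3 y) : St s := by
  refine ⟨sqf_of_Tup h, ?_⟩
  rw [Nat.coprime_comm]
  rw [Nat.coprime_iff_gcd_eq_one]
  by_contra hne
  obtain ⟨p, hp, hpd⟩ := Nat.exists_prime_and_dvd hne
  have h6 : p ∣ 6 := hpd.trans (Nat.gcd_dvd_left _ _)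
  have hpp : p ∈ (∏ i, s i).primeFactors := Nat.mem_primeFactors.2
    ⟨hp, hpd.trans (Nat.gcd_dvd_right _ _), (sqf_of_Tup h).ne_zero⟩
  have h3 := (bd_of_Tup h hpp).2.1
  have hle : p ≤ 6 := Nat.le_of_dvd (by norm_num) h6
  interval_cases p
  · omega
  · omega
  · exact absurd hp (by norm_num)

/-! ### congruence of coranks -/

lemma KerE_congr {S : Finset ℕ} {e e' : ℕ → ℕ → ZMod 2} (h : ∀ p ∈ S, ∀ q ∈ S, e p q = e' p q) :
    KerE S e = KerE S e' := by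
  ext v
  constructor
  · rintro ⟨h1, h2⟩
    refine ⟨h1, fun p hp => ?_⟩
    rw [← h2 p hp]
    exact sum_congr rfl (fun q hq => by rw [h p hp q hq])
  · rintro ⟨h1, h2⟩
    refine ⟨h1, fun p hp => ?_⟩
    rw [← h2 p hp]
    exact sum_congr rfl (fun q hq => by rw [h p hp q hq])

lemma cork_congr (o : Bool) {S : Finset ℕ} {cl cl' : ℕ → Fin 3} {τ τ' : ℕ → ZMod 2}
    (h1 : ∀ p ∈ S, cl p = cl' p) (h2 : ∀ p ∈ S, τ p = τ' p) : cork o S cl τ = cork o S cl' τ' := by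
  unfold cork
  have : KerE S (en o cl τ) = KerE S (en o cl' τ') := KerE_congr (by
    intro p hp q hq
    unfold en
    rw [h1 p hp, h1 q hq, h2 p hp])
  rw [this]

/-! ### the case `K = 0` -/

lemma mem_Sol {X : ℕ} {s : Fin 3 → ℕ} {E : Finset ℕ} {t : ℕ × ℕ × ℕ} (h : t ∈ Sol X s E) :
    t.1.Prime ∧ t.2.1.Prime ∧ t.2.2.Prime ∧
    X < t.1 ^ 2 ∧ X < t.2.1 ^ 2 ∧ X < t.2.2 ^ 2 ∧ s 1 * t.2.1 ≤ X ∧
    Gd (s 0 * t.1) (s 1 * t.2.1) (s 2 * t.2.2) ∧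
    ∀ l ∈ (∏ i, s i).primeFactors, tf (s 0 * t.1) (s 1 * t.2.1) (s 2 * t.2.2) l = ind E l := by
  simp only [Sol, mem_filter] at h
  exact h.2

lemma clf_congr {A B A' B' l : ℕ} (h1 : l ∣ A ↔ l ∣ A') (h2 : l ∣ B ↔ l ∣ B') :
    clf A B l = clf A' B' l := by
  unfold clf
  simp only [h1, h2]

lemma Sol_Ext {X y : ℕ} {s : Fin 3 → ℕ} {E : Finset ℕ} (hs : s ∈ Tup (Fin 3) 3 y)
    (hy : y ^ 2 ≤ X) (hc : ∀ o, corkS o s E ≤ 0) {t : ℕ × ℕ × ℕ} (ht : t ∈ Sol X s E) :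
    (s 0 * t.1, s 2 * t.2.2) ∈ Ext X y s E := by
  obtain ⟨hp, hq, hr, hp2, hq2, hr2, hle, hG, hb⟩ := mem_Sol ht
  obtain ⟨p, q, r⟩ := t
  simp only at *
  have h0 := ne_zero_of_Tup hs
  have hbe : s 0 * p + 4 * (s 2 * r) = s 1 * q := hG.hb.symm
  have hnl : ∀ l a : ℕ, l ≤ y → X < a ^ 2 → l ≠ a := by
    rintro l a hl ha rfl
    have := Nat.pow_le_pow_left hl 2
    omega
  have hdv : ∀ (l a c : ℕ), l.Prime → a.Prime → l ≠ a → (l ∣ c * a ↔ l ∣ c) := by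
    intro l a c hl ha hne
    rw [hl.dvd_mul]
    constructor
    · rintro (h | h)
      · exact h
      · exact absurd ((Nat.prime_dvd_prime_iff_eq hl ha).1 h) hne
    · exact fun h => Or.inl h
  have hsq := hG.sq
  -- the large primes do not divide `∏ s`
  have hnd : ∀ i : Fin 3, ∀ a ∈ ({p, q, r} : Finset ℕ), ¬ a ∣ s i := by
    intro i a ha hd
    have hpr : a.Prime := by
      simp only [mem_insert, mem_singleton] at ha
      rcases ha with rfl | rfl | rfl <;> assumption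
    have haX : X < a ^ 2 := by
      simp only [mem_insert, mem_singleton] at ha
      rcases ha with rfl | rfl | rfl <;> assumption
    have hai : a ∈ (∏ i, s i).primeFactors := Nat.mem_primeFactors.2
      ⟨hpr, hd.trans (dvd_prod_of_mem _ (mem_univ i)), (sqf_of_Tup hs).ne_zero⟩
    exact hnl a a (bd_of_Tup hs hai).2.2 haX rfl
  have hprod : s 0 * p * (s 1 * q) * (s 2 * r) = (∏ i, s i) * (p * q * r) := by
    rw [Fin.prod_univ_three]; ring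
  have hpf : (s 0 * p * (s 1 * q) * (s 2 * r)).primeFactors \ {p, q, r} =
      (∏ i, s i).primeFactors := by
    rw [hprod, Nat.primeFactors_mul (sqf_of_Tup hs).ne_zero
      (mul_ne_zero (mul_ne_zero hp.ne_zero hq.ne_zero) hr.ne_zero),
      Nat.primeFactors_mul (mul_ne_zero hp.ne_zero hq.ne_zero) hr.ne_zero,
      Nat.primeFactors_mul hp.ne_zero hq.ne_zero, hp.primeFactors, hq.primeFactors,
      hr.primeFactors]
    ext l
    simp only [mem_sdiff, mem_union, mem_singleton, mem_insert]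
    constructor
    · rintro ⟨h | h, h'⟩
      · exact h
      · exact absurd (by tauto) h'
    · intro h
      refine ⟨Or.inl h, fun h' => ?_⟩
      have hl := Nat.prime_of_mem_primeFactors h
      obtain ⟨i, _, hi⟩ := (hl.prime.dvd_finsetProd_iff _).1 (Nat.dvd_of_mem_primeFactors h)
      exact hnd i l (by simpa using h') hi
  unfold Ext
  simp only [mem_filter, mem_product, mem_Icc]
  have hs0p : 1 ≤ s 0 * p := Nat.one_le_iff_ne_zero.2 (mul_ne_zero (h0 0) hp.ne_zero)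
  have hs2r : 1 ≤ s 2 * r := Nat.one_le_iff_ne_zero.2 (mul_ne_zero (h0 2) hr.ne_zero)
  refine ⟨⟨⟨hs0p, by omega⟩, ⟨hs2r, by omega⟩⟩, by omega, ?_, ?_, ?_⟩
  · rw [hbe]
    refine ⟨hG, p, q, r, hp, hq, hr, dvd_mul_left _ _, dvd_mul_left _ _, dvd_mul_left _ _, ?_⟩
    intro o
    rw [hpf]
    have := hc o
    unfold corkS at this
    rw [cork_congr o (cl' := clf (s 0) (s 1)) (τ' := ind E)]
    · omega
    · intro l hl
      have hl' := bd_of_Tup hs hl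
      exact clf_congr (hdv l p _ hl'.1 hp (hnl l p hl'.2.2 hp2))
        (hdv l q _ hl'.1 hq (hnl l q hl'.2.2 hq2))
    · exact hb
  · rw [hbe]
    intro l hl hly
    exact ⟨hdv l p _ hl hp (hnl l p hly hp2), hdv l q _ hl hq (hnl l q hly hq2),
      hdv l r _ hl hr (hnl l r hly hr2)⟩
  · rw [hbe]
    exact hb

lemma Sol_card_le {X y : ℕ} {s : Fin 3 → ℕ} {E : Finset ℕ}
    (hs : s ∈ Tup (Fin 3) 3 y) (hy : y ^ 2 ≤ X) (hc : ∀ o, corkS o s E ≤ 0) :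
    (Sol X s E).card ≤ (Ext X y s E).card := by
  have h0 := ne_zero_of_Tup hs
  refine card_le_card_of_injOn (fun t => (s 0 * t.1, s 2 * t.2.2))
    (fun t ht => Sol_Ext hs hy hc ht) ?_
  intro t ht t' ht' heq
  have h1 := (mem_Sol ht).2.2.2.2.2.2.2.1.hb
  have h2 := (mem_Sol ht').2.2.2.2.2.2.2.1.hb
  simp only [Prod.mk.injEq] at heq
  have e1 : t.1 = t'.1 := Nat.eq_of_mul_eq_mul_left (Nat.pos_of_ne_zero (h0 0)) heq.1
  have e3 : t.2.2 = t'.2.2 := Nat.eq_of_mul_eq_mul_left (Nat.pos_of_ne_zero (h0 2)) heq.2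
  have e2 : t.2.1 = t'.2.1 := Nat.eq_of_mul_eq_mul_left (Nat.pos_of_ne_zero (h0 1))
    (by rw [h1, h2, e1, e3])
  exact Prod.ext e1 (Prod.ext e2 e3)

lemma pow_tenth {X y : ℕ} (hX : 1 ≤ X) (hy : (y : ℝ) ≤ (X : ℝ) ^ (1 / 10 : ℝ)) : y ^ 2 ≤ X := by
  have hX' : (1 : ℝ) ≤ X := by exact_mod_cast hX
  have h : ((y ^ 2 : ℕ) : ℝ) ≤ (X : ℝ) := by
    push_cast
    calc (y : ℝ) ^ 2 ≤ ((X : ℝ) ^ (1 / 10 : ℝ)) ^ 2 := by gcongr
      _ = (X : ℝ) ^ (1 / 5 : ℝ) := by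
        rw [← Real.rpow_natCast, ← Real.rpow_mul (by linarith)]; norm_num
      _ ≤ (X : ℝ) ^ (1 : ℝ) := Real.rpow_le_rpow_of_exponent_le hX' (by norm_num)
      _ = X := Real.rpow_one _
  exact_mod_cast h

theorem base (hAN : S_AN) (ρ : ℝ) (hρ : 0 < ρ) : ∃ δ c : ℝ, 0 < δ ∧ δ ≤ 1 / 10 ∧ 0 < c ∧
    ∃ X0 : ℕ, ∀ X : ℕ, X0 ≤ X → ∃ D : Finset ℕ, Sp 20 ρ X D ∧ ∀ (y : ℕ) (s : Fin 3 → ℕ)
    (E : Finset ℕ), (y : ℝ) ≤ (X : ℝ) ^ δ → s ∈ Tup (Fin 3) 3 y →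
    ((∏ i, s i : ℕ) : ℝ) ≤ (X : ℝ) ^ δ →
    (2 : ℝ) ^ (∏ i, s i).primeFactors.card * 2 ^ 0 ≤ Real.log X ^ 20 →
    Cln D (∏ i, s i) → (∀ o, corkS o s E ≤ 0) →
    c * (1 / 2) ^ (∏ i, s i).primeFactors.card *
      ((X : ℝ) ^ 2 / (((∏ i, s i : ℕ) : ℝ) * Real.log X ^ 3)) ≤ ((Ext X y s E).card : ℝ) := by
  obtain ⟨c, hc, X0, h⟩ := hAN ρ hρ
  refine ⟨1 / 10, c, by norm_num, le_rfl, hc, max X0 1, fun X hX => ?_⟩
  obtain ⟨D, hD, h⟩ := h X (le_trans (le_max_left _ _) hX)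
  refine ⟨D, hD, fun y s E hy hs hps hom hcl hco => ?_⟩
  have hX1 : 1 ≤ X := le_trans (le_max_right _ _) hX
  refine (h s E (St_of_Tup hs) hps (by simpa using hom) hcl).trans ?_
  exact_mod_cast Sol_card_le hs (pow_tenth hX1 hy) hco

end Ind

end Pool.Agent.L0h94.RZ
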