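import Mathlib
import Pool.Agent.L0h3.RZ.Ind0

/-! Project RZ, part IND: one step -/

set_option autoImplicit false

namespace Pool.Agent.L0h94.RZ

open Finset Pool.Agent.W262.RK

namespace Ind

/-- the state with one more prime -/
def upS (s : Fin 3 → ℕ) (χ : Fin 3) (l : ℕ) : Fin 3 → ℕ := Function.update s χ (s χ * l)

/-- the bits with one more prime -/
def upE (E : Finset ℕ) (l : ℕ) (d : ZMod 2) : Finset ℕ := if d = 1 then insert l E else E.erase l

lemma upS_self (s : Fin 3 → ℕ) (χ : Fin 3) (l : ℕ) : upS s χ l χ = s χ * l := by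
  simp [upS]

lemma upS_ne (s : Fin 3 → ℕ) {χ i : Fin 3} (l : ℕ) (h : i ≠ χ) : upS s χ l i = s i := by
  simp [upS, h]

lemma prod_upS (s : Fin 3 → ℕ) (χ : Fin 3) (l : ℕ) : ∏ i, upS s χ l i = l * ∏ i, s i := by
  rw [Fin.prod_univ_three, Fin.prod_univ_three]
  fin_cases χ <;> simp [upS, Function.update] <;> ring

lemma ind_upE_self (E : Finset ℕ) (l : ℕ) (d : ZMod 2) : ind (upE E l d) l = d := by
  have hd : d = 0 ∨ d = 1 := by
    revert d; decide
  rcases hd with rfl | rfl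
  · simp [upE, ind]
  · simp [upE, ind]

lemma ind_upE_ne (E : Finset ℕ) {l q : ℕ} (d : ZMod 2) (h : q ≠ l) :
    ind (upE E l d) q = ind E q := by
  unfold upE ind
  split_ifs <;> simp_all

variable {y : ℕ} {s : Fin 3 → ℕ} {l : ℕ}

lemma not_dvd (hs : s ∈ Tup (Fin 3) 3 y) (hl : l.Prime) (hy : y < l) (i : Fin 3) : ¬ l ∣ s i := by
  intro h
  have := (prime_dvd_PP hl).1 (h.trans ((Tup_iff.1 hs).1 i))
  omega

lemma not_dvd_prod (hs : s ∈ Tup (Fin 3) 3 y) (hl : l.Prime) (hy : y < l) : ¬ l ∣ ∏ i, s i := by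
  intro h
  obtain ⟨i, _, hi⟩ := (hl.prime.dvd_finsetProd_iff _).1 h
  exact not_dvd hs hl hy i hi

lemma dvd_upS_ne {q : ℕ} (hq : q.Prime) (hl : l.Prime) (h : q ≠ l) (χ i : Fin 3) :
    q ∣ upS s χ l i ↔ q ∣ s i := by
  by_cases hi : i = χ
  · subst hi
    rw [upS_self, hq.dvd_mul]
    constructor
    · rintro (h' | h')
      · exact h'
      · exact absurd ((Nat.prime_dvd_prime_iff_eq hq hl).1 h') h
    · exact fun h' => Or.inl h'
  · rw [upS_ne s l hi]

lemma dvd_upS_self (hs : s ∈ Tup (Fin 3) 3 y) (hl : l.Prime) (hy : y < l) (χ i : Fin 3) :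
    l ∣ upS s χ l i ↔ i = χ := by
  by_cases hi : i = χ
  · subst hi
    rw [upS_self]
    simp
  · rw [upS_ne s l hi]
    simp only [hi, iff_false]
    exact not_dvd hs hl hy i

lemma upS_Tup {y' : ℕ} (hs : s ∈ Tup (Fin 3) 3 y) (hl : l.Prime) (h3 : 3 < l) (hy : y < l)
    (hly : l ≤ y') (χ : Fin 3) : upS s χ l ∈ Tup (Fin 3) 3 y' := by
  obtain ⟨h1, h2⟩ := Tup_iff.1 hs
  have hPP : PP 3 y ∣ PP 3 y' := by
    unfold PP
    apply prod_dvd_prod_of_subset
    intro p hp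
    simp only [PS, mem_filter, mem_Ioc] at hp ⊢
    exact ⟨⟨hp.1.1, by omega⟩, hp.2⟩
  have hcl : ∀ i, (s i).Coprime l := fun i =>
    ((Nat.Prime.coprime_iff_not_dvd hl).2 (not_dvd hs hl hy i)).symm
  have hld : l ∣ PP 3 y' := (prime_dvd_PP hl).2 ⟨h3, hly⟩
  refine Tup_iff.2 ⟨fun i => ?_, fun i j hij => ?_⟩
  · by_cases hi : i = χ
    · subst hi
      rw [upS_self]
      exact Nat.Coprime.mul_dvd_of_dvd_of_dvd (hcl i) ((h1 i).trans hPP) hld
    · rw [upS_ne s l hi]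
      exact (h1 i).trans hPP
  · by_cases hi : i = χ
    · subst hi
      rw [upS_self, upS_ne s l (Ne.symm hij)]
      exact Nat.Coprime.mul_left (h2 i j hij) (hcl j).symm
    · rw [upS_ne s l hi]
      by_cases hj : j = χ
      · subst hj
        rw [upS_self]
        exact Nat.Coprime.mul_right (h2 i j hij) (hcl i)
      · rw [upS_ne s l hj]
        exact h2 i j hij

lemma pf_upS (hs : s ∈ Tup (Fin 3) 3 y) (hl : l.Prime) (χ : Fin 3) :
    (∏ i, upS s χ l i).primeFactors = insert l (∏ i, s i).primeFactors := by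
  rw [prod_upS, Nat.primeFactors_mul hl.ne_zero (sqf_of_Tup hs).ne_zero, hl.primeFactors]
  rfl

lemma corkS_up (o : Bool) (hs : s ∈ Tup (Fin 3) 3 y) (hl : l.Prime) (hy : y < l) (χ : Fin 3)
    (E : Finset ℕ) (d : ZMod 2) :
    corkS o (upS s χ l) (upE E l d) = cork o (insert l (∏ i, s i).primeFactors)
      (Function.update (clf (s 0) (s 1)) l χ) (Function.update (ind E) l d) := by
  unfold corkS
  rw [pf_upS hs hl]
  apply cork_congr
  · intro q hq
    by_cases hql : q = l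
    · subst hql
      rw [Function.update_self]
      unfold clf
      simp only [dvd_upS_self hs hl hy]
      fin_cases χ <;> simp
    · rw [Function.update_of_ne hql]
      have hqp : q.Prime := by
        rw [mem_insert] at hq
        rcases hq with h | h
        · exact absurd h hql
        · exact Nat.prime_of_mem_primeFactors h
      exact clf_congr (dvd_upS_ne hqp hl hql χ 0) (dvd_upS_ne hqp hl hql χ 1)
  · intro q hq
    by_cases hql : q = l
    · subst hql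
      rw [Function.update_self, ind_upE_self]
    · rw [Function.update_of_ne hql, ind_upE_ne E d hql]

lemma mem_Ext {X y : ℕ} {s : Fin 3 → ℕ} {E : Finset ℕ} {t : ℕ × ℕ} : t ∈ Ext X y s E ↔
    ((1 ≤ t.1 ∧ t.1 ≤ X) ∧ (1 ≤ t.2 ∧ t.2 ≤ X)) ∧
    t.1 + 4 * t.2 ≤ X ∧ Ok t.1 (t.1 + 4 * t.2) t.2 ∧
    (∀ p : ℕ, p.Prime → p ≤ y → ((p ∣ t.1 ↔ p ∣ s 0) ∧ (p ∣ t.1 + 4 * t.2 ↔ p ∣ s 1) ∧
      (p ∣ t.2 ↔ p ∣ s 2))) ∧
    ∀ p ∈ (∏ i, s i).primeFactors, tf t.1 (t.1 + 4 * t.2) t.2 p = ind E p := by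
  simp only [Ext, mem_filter, mem_product, mem_Icc]

lemma Ext_up {X y' : ℕ} (hs : s ∈ Tup (Fin 3) 3 y) (hl : l.Prime) (hy : y < l)
    (hly : l ≤ y') (χ : Fin 3) (E : Finset ℕ) (d : ZMod 2) :
    Ext X y' (upS s χ l) (upE E l d) ⊆ Ext X y s E := by
  intro t ht
  rw [mem_Ext] at ht ⊢
  obtain ⟨h1, h2, h3, h4, h5⟩ := ht
  refine ⟨h1, h2, h3, fun p hp hpy => ?_, fun p hp => ?_⟩
  · have hne : p ≠ l := by omega
    have := h4 p hp (by omega)
    rw [dvd_upS_ne hp hl hne, dvd_upS_ne hp hl hne, dvd_upS_ne hp hl hne] at this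
    exact this
  · have hb := bd_of_Tup hs hp
    have hne : p ≠ l := by omega
    rw [h5 p (by rw [pf_upS hs hl]; exact mem_insert_of_mem hp), ind_upE_ne E d hne]

lemma Ext_disj {X y' l' : ℕ} (hs : s ∈ Tup (Fin 3) 3 y) (hl : l.Prime) (hy : y < l)
    (hly : l ≤ y') (hl' : l'.Prime) (hne : l ≠ l') (χ : Fin 3)
    (E : Finset ℕ) (d d' : ZMod 2) :
    Disjoint (Ext X y' (upS s χ l) (upE E l d)) (Ext X y' (upS s χ l') (upE E l' d')) := by
  rw [disjoint_left]
  intro t ht ht'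
  rw [mem_Ext] at ht ht'
  have h4 := ht.2.2.2.1 l hl hly
  have h4' := ht'.2.2.2.1 l hl hly
  rw [dvd_upS_self hs hl hy, dvd_upS_self hs hl hy, dvd_upS_self hs hl hy] at h4
  rw [dvd_upS_ne hl hl' hne, dvd_upS_ne hl hl' hne, dvd_upS_ne hl hl' hne] at h4'
  have n0 := not_dvd hs hl hy 0
  have n1 := not_dvd hs hl hy 1
  have n2 := not_dvd hs hl hy 2
  have : χ = 0 ∨ χ = 1 ∨ χ = 2 := by
    fin_cases χ <;> simp
  rcases this with rfl | rfl | rfl
  · exact n0 (h4'.1.1 (h4.1.2 rfl))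
  · exact n1 (h4'.2.1.1 (h4.2.1.2 rfl))
  · exact n2 (h4'.2.2.1 (h4.2.2.2 rfl))

open Classical in
/-- the number of bad primes `l` -/
lemma bad_card {D : Finset ℕ} {N Z : ℕ} (hN : 0 < N) (hD : Cln D N) (R : Finset ℕ)
    (hR : ∀ l ∈ R, l.Prime ∧ ¬ l ∣ N ∧ l * N ≤ Z) :
    (R.filter (fun l => ¬ Cln D (l * N))).card ≤ (D.filter (fun e => e ≤ Z)).card := by
  have key : ∀ l ∈ R.filter (fun l => ¬ Cln D (l * N)), ∃ e ∈ D.filter (fun e => e ≤ Z),
      e = l * Nat.gcd e N := by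
    intro l hl
    obtain ⟨hlR, hc⟩ := mem_filter.1 hl
    obtain ⟨hp, hnd, hZ⟩ := hR l hlR
    unfold Cln at hc
    push Not at hc
    obtain ⟨e, heD, he⟩ := hc
    have hle : l ∣ e := by
      by_contra hnl
      have hco : e.Coprime l := ((Nat.Prime.coprime_iff_not_dvd hp).2 hnl).symm
      exact hD e heD (hco.dvd_of_dvd_mul_left he)
    obtain ⟨f, rfl⟩ := hle
    have hf : f ∣ N := Nat.dvd_of_mul_dvd_mul_left hp.pos he
    have hg : Nat.gcd (l * f) N = f := by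
      have h1 : (Nat.Coprime l N) := (Nat.Prime.coprime_iff_not_dvd hp).2 hnd
      rw [Nat.Coprime.gcd_mul_left_cancel f h1]
      exact Nat.gcd_eq_left hf
    refine ⟨l * f, mem_filter.2 ⟨heD, ?_⟩, by rw [hg]⟩
    exact (Nat.le_of_dvd (Nat.mul_pos hp.pos hN) he).trans hZ
  choose! g hg hge using key
  refine card_le_card_of_injOn g (fun l hl => hg l hl) ?_
  intro l hl l' hl' h
  have e1 := hge l hl
  have e2 := hge l' hl'
  have hpos : 0 < Nat.gcd (g l) N := Nat.gcd_pos_of_pos_right _ hN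
  rw [← h] at e2
  exact Nat.eq_of_mul_eq_mul_right hpos (e1.symm.trans e2)

end Ind

end Pool.Agent.L0h94.RZ
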