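import Mathlib
import Pool.Agent.L0h3.RZ.Ind1

/-! Project RZ, part IND: the induction -/

set_option autoImplicit false

namespace Pool.Agent.L0h94.RZ

open Finset Pool.Agent.W262.RK

namespace Ind

lemma Sp_union {ρ : ℝ} (hρ : 0 < ρ) {A : ℕ} (hA20 : 20 ≤ A) (hA : 6 / ρ ≤ A) {X : ℕ}
    (hlog : 1 ≤ Real.log X) (h2 : 2 ≤ (Real.log X ^ 20) ^ (ρ / 2)) {D D1 : Finset ℕ}
    (hD : Sp 20 (ρ / 2) X D) (h1 : ∀ e ∈ D1, Real.log X ^ A < (e : ℝ))
    (hc : (D1.card : ℝ) ≤ Real.log X ^ 3) : Sp 20 ρ X (D ∪ D1) := by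
  have hb : ∀ e ∈ D ∪ D1, Real.log X ^ 20 < (e : ℝ) := by
    intro e he
    rcases mem_union.1 he with h | h
    · exact hD.1 e h
    · exact (pow_le_pow_right₀ hlog hA20).trans_lt (h1 e h)
  refine ⟨hb, fun x => ?_⟩
  by_cases hne : (D ∪ D1).filter (fun e => e ≤ x) = ∅
  · rw [hne]
    simpa using Real.rpow_nonneg (Nat.cast_nonneg x) ρ
  · obtain ⟨e, he⟩ := nonempty_iff_ne_empty.2 hne
    obtain ⟨he1, he2⟩ := mem_filter.1 he
    have hx : Real.log X ^ 20 ≤ (x : ℝ) := (hb e he1).le.trans (by exact_mod_cast he2)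
    have hl0 : (0 : ℝ) ≤ Real.log X ^ 20 := by positivity
    have hx0 : (0 : ℝ) < x := lt_of_lt_of_le (by positivity) hx
    have hx2 : (2 : ℝ) ≤ (x : ℝ) ^ (ρ / 2) := h2.trans (Real.rpow_le_rpow hl0 hx (by positivity))
    have hc1 : ((D.filter (fun e => e ≤ x)).card : ℝ) ≤ (x : ℝ) ^ (ρ / 2) := hD.2 x
    have hc2 : ((D1.filter (fun e => e ≤ x)).card : ℝ) ≤ (x : ℝ) ^ (ρ / 2) := by
      by_cases hn1 : D1.filter (fun e => e ≤ x) = ∅
      · rw [hn1]
        simpa using Real.rpow_nonneg (Nat.cast_nonneg x) (ρ / 2)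
      · obtain ⟨e, he⟩ := nonempty_iff_ne_empty.2 hn1
        obtain ⟨he1, he2⟩ := mem_filter.1 he
        have hxA : Real.log X ^ A ≤ (x : ℝ) := (h1 e he1).le.trans (by exact_mod_cast he2)
        have hAρ : (3 : ℝ) ≤ A * (ρ / 2) := by
          have := mul_le_mul_of_nonneg_right hA (by positivity : (0 : ℝ) ≤ ρ / 2)
          have h3 : 6 / ρ * (ρ / 2) = 3 := by field_simp; norm_num
          linarith
        calc ((D1.filter (fun e => e ≤ x)).card : ℝ) ≤ D1.card := by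
              exact_mod_cast card_le_card (filter_subset _ _)
          _ ≤ Real.log X ^ 3 := hc
          _ = Real.log X ^ ((3 : ℕ) : ℝ) := by rw [Real.rpow_natCast]
          _ ≤ Real.log X ^ ((A : ℝ) * (ρ / 2)) := by
              apply Real.rpow_le_rpow_of_exponent_le hlog
              exact_mod_cast hAρ
          _ = (Real.log X ^ A) ^ (ρ / 2) := by
              rw [Real.rpow_mul (by linarith), Real.rpow_natCast]
          _ ≤ (x : ℝ) ^ (ρ / 2) := Real.rpow_le_rpow (by positivity) hxA (by positivity)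
    have hsub : ((D ∪ D1).filter (fun e => e ≤ x)).card ≤
        (D.filter (fun e => e ≤ x)).card + (D1.filter (fun e => e ≤ x)).card := by
      rw [filter_union]
      exact card_union_le _ _
    calc (((D ∪ D1).filter (fun e => e ≤ x)).card : ℝ) ≤
          (D.filter (fun e => e ≤ x)).card + (D1.filter (fun e => e ≤ x)).card := by
            exact_mod_cast hsub
      _ ≤ 2 * (x : ℝ) ^ (ρ / 2) := by linarith
      _ ≤ (x : ℝ) ^ (ρ / 2) * (x : ℝ) ^ (ρ / 2) := by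
          apply mul_le_mul_of_nonneg_right hx2
          positivity
      _ = (x : ℝ) ^ ρ := by
          rw [← Real.rpow_add hx0]; congr 1; ring

lemma ev (ρ η : ℝ) (hρ : 0 < ρ) (hη : 0 < η) : ∃ X1 : ℕ, ∀ X : ℕ, X1 ≤ X →
    1 ≤ X ∧ 1 ≤ Real.log X ∧ 2 ≤ (Real.log X ^ 20) ^ (ρ / 2) ∧
    (X : ℝ) ^ (-(η / 2)) ≤ 1 / 200 := by
  have h1 : Filter.Tendsto (fun X : ℕ => Real.log (X : ℝ)) Filter.atTop Filter.atTop :=
    Real.tendsto_log_atTop.comp tendsto_natCast_atTop_atTop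
  have h2 : Filter.Tendsto (fun X : ℕ => (Real.log (X : ℝ) ^ 20) ^ (ρ / 2)) Filter.atTop
      Filter.atTop := (tendsto_rpow_atTop (by positivity)).comp
        ((Filter.tendsto_pow_atTop (by norm_num)).comp h1)
  have h3 : Filter.Tendsto (fun X : ℕ => (X : ℝ) ^ (-(η / 2))) Filter.atTop (nhds 0) :=
    (tendsto_rpow_neg_atTop (by positivity)).comp tendsto_natCast_atTop_atTop
  have e : ∀ᶠ X : ℕ in Filter.atTop, 1 ≤ X ∧ 1 ≤ Real.log X ∧
      2 ≤ (Real.log X ^ 20) ^ (ρ / 2) ∧ (X : ℝ) ^ (-(η / 2)) ≤ 1 / 200 := by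
    filter_upwards [Filter.eventually_ge_atTop 1, h1.eventually_ge_atTop 1,
      h2.eventually_ge_atTop 2, h3.eventually_le_const (by norm_num : (0 : ℝ) < 1 / 200)]
      with X a b c d
    exact ⟨a, b, c, d⟩
  exact Filter.eventually_atTop.1 e

/-- the statement for one `K` and one `ρ` -/
def PK (K : ℕ) (ρ : ℝ) : Prop := ∃ δ c : ℝ, 0 < δ ∧ δ ≤ 1 / 10 ∧ 0 < c ∧
    ∃ X0 : ℕ, ∀ X : ℕ, X0 ≤ X → ∃ D : Finset ℕ, Sp 20 ρ X D ∧ ∀ (y : ℕ) (s : Fin 3 → ℕ)
    (E : Finset ℕ), (y : ℝ) ≤ (X : ℝ) ^ δ → s ∈ Tup (Fin 3) 3 y →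
    ((∏ i, s i : ℕ) : ℝ) ≤ (X : ℝ) ^ δ →
    (2 : ℝ) ^ (∏ i, s i).primeFactors.card * 2 ^ K ≤ Real.log X ^ 20 →
    Cln D (∏ i, s i) → (∀ o, corkS o s E ≤ K) →
    c * (1 / 2) ^ (∏ i, s i).primeFactors.card *
      ((X : ℝ) ^ 2 / (((∏ i, s i : ℕ) : ℝ) * Real.log X ^ 3)) ≤ ((Ext X y s E).card : ℝ)

lemma prod_pf {n : ℕ} (h : Squarefree n) : ∏ p ∈ n.primeFactors, p = n :=
  Nat.prod_primeFactors_of_squarefree h

open Classical in
theorem step (hST : S_STEER) (hEQ : S_EQ) (K : ℕ)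
    (IH : ∀ ρ : ℝ, 0 < ρ → ρ ≤ 1 / 4 → PK K ρ) (ρ : ℝ) (hρ : 0 < ρ) (hρ4 : ρ ≤ 1 / 4) :
    PK (K + 1) ρ := by
  obtain ⟨δK, cK, hδK, hδK1, hcK, XK, hK⟩ := IH (ρ / 2) (by linarith) (by linarith)
  obtain ⟨η, hη⟩ : ∃ η : ℝ, η = δK / 9 := ⟨_, rfl⟩
  have hη0 : 0 < η := by rw [hη]; positivity
  have hη1 : η < 1 := by rw [hη]; linarith
  obtain ⟨A, hA⟩ := exists_nat_ge (max 20 (6 / ρ))
  have hA20 : 20 ≤ A := by exact_mod_cast (le_max_left _ _).trans hA
  have hA6 : 6 / ρ ≤ A := (le_max_right _ _).trans hA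
  obtain ⟨XE, hE⟩ := hEQ η hη0 hη1 A
  obtain ⟨X1, h1⟩ := ev ρ η hρ hη0
  refine ⟨η / 4, cK / 400, by positivity, by rw [hη]; linarith, by positivity,
    max XK (max XE X1), fun X hX => ?_⟩
  obtain ⟨hX1, hlog, hl2, hX200⟩ :=
    h1 X (((le_max_right _ _).trans (le_max_right _ _)).trans hX)
  obtain ⟨DK, hDK, hK⟩ := hK X ((le_max_left _ _).trans hX)
  obtain ⟨D1, hD1a, hD1c, hE⟩ := hE X (((le_max_left _ _).trans (le_max_right _ _)).trans hX)
  refine ⟨DK ∪ D1, Sp_union hρ hA20 hA6 hlog hl2 hDK hD1a hD1c,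
    fun y s E hy hs hps hom hcl hco => ?_⟩
  have hXr : (1 : ℝ) ≤ X := by exact_mod_cast hX1
  have hX0 : (0 : ℝ) < X := by linarith
  have hclK : Cln DK (∏ i, s i) := fun e he => hcl e (mem_union_left _ he)
  have hcl1 : Cln D1 (∏ i, s i) := fun e he => hcl e (mem_union_right _ he)
  have hsq := sqf_of_Tup hs
  have hNpos : 0 < ∏ i, s i := Nat.pos_of_ne_zero hsq.ne_zero
  have hNr : (0 : ℝ) < ((∏ i, s i : ℕ) : ℝ) := by exact_mod_cast hNpos
  have hlog0 : 0 < Real.log X := by linarith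
  have hmono : ∀ {a b : ℝ}, a ≤ b → (X : ℝ) ^ a ≤ (X : ℝ) ^ b := fun h =>
    Real.rpow_le_rpow_of_exponent_le hXr h
  by_cases hcase : ∀ o, corkS o s E ≤ K
  · have hom' : (2 : ℝ) ^ (∏ i, s i).primeFactors.card * 2 ^ K ≤ Real.log X ^ 20 := by
      refine le_trans ?_ hom
      gcongr
      · norm_num
      · omega
    have := hK y s E (hy.trans (hmono (by rw [hη]; linarith))) hs
      (hps.trans (hmono (by rw [hη]; linarith))) hom' hclK hcase
    refine le_trans ?_ this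
    have hle : cK / 400 ≤ cK := by linarith
    gcongr
  · have hnz : ¬ (cork false (∏ i, s i).primeFactors (clf (s 0) (s 1)) (ind E) = 0 ∧
        cork true (∏ i, s i).primeFactors (clf (s 0) (s 1)) (ind E) = 0) := by
      rintro ⟨a, b⟩
      apply hcase
      intro o
      cases o
      · unfold corkS; omega
      · unfold corkS; omega
    obtain ⟨χ, T, hT, hst⟩ := hST (∏ i, s i).primeFactors (clf (s 0) (s 1)) (ind E)
      (fun p hp => ⟨(bd_of_Tup hs hp).1, by have := (bd_of_Tup hs hp).2.1; omega⟩) hnz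
    have hsum := hE (∏ i, s i).primeFactors
      (fun p hp => ⟨(bd_of_Tup hs hp).1, (bd_of_Tup hs hp).2.1⟩)
      (by rw [prod_pf hsq]; exact hps) (by rw [prod_pf hsq]; exact hcl1) T hT
    obtain ⟨R, hRdef⟩ : ∃ R : Finset ℕ, R = (rg X η).filter
      (fun l : ℕ => ∀ o, ∑ p ∈ T o, nr p (l : ℤ) = 1) := ⟨_, rfl⟩
    have hsumR : 1 / 100 ≤ ∑ l ∈ R, 1 / (l : ℝ) := by
      rw [hRdef]
      convert hsum
    have hR : ∀ l ∈ R, l.Prime ∧ l % 24 = 1 ∧ (X : ℝ) ^ η < l ∧ (l : ℝ) ≤ (X : ℝ) ^ (2 * η) ∧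
        ∀ o, ∑ p ∈ T o, nr p (l : ℤ) = 1 := by
      intro l hl
      rw [hRdef] at hl
      simp only [rg, mem_filter, mem_Ioc] at hl
      obtain ⟨⟨⟨a, b⟩, c, d⟩, e⟩ := hl
      refine ⟨c, d, Nat.lt_of_floor_lt a, ?_, e⟩
      exact (Nat.cast_le.2 b).trans (Nat.floor_le (by positivity))
    have hyl : ∀ l ∈ R, y < l := by
      intro l hl
      have : (y : ℝ) < l := lt_of_le_of_lt (hy.trans (hmono (by linarith))) (hR l hl).2.2.1
      exact_mod_cast this
    have hd : ∀ l ∈ R, ∃ d : ZMod 2, ∀ o, corkS o (upS s χ l) (upE E l d) ≤ K := by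
      intro l hl
      obtain ⟨hlp, hl24, _, _, hlT⟩ := hR l hl
      obtain ⟨d, hd⟩ := hst l hlp (fun hmem => by
        have := (bd_of_Tup hs hmem).2.2
        have := hyl l hl
        omega) (by omega) hlT
      refine ⟨d, fun o => ?_⟩
      rw [corkS_up o hs hlp (hyl l hl), hd o]
      have := hco o
      unfold corkS at this
      omega
    choose! d hd using hd
    obtain ⟨N, hN⟩ : ∃ N : ℕ, N = ∏ i, s i := ⟨_, rfl⟩
    obtain ⟨G, hG⟩ : ∃ G : Finset ℕ, G = R.filter (fun l => Cln DK (l * N)) := ⟨_, rfl⟩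
    obtain ⟨y', hy'⟩ : ∃ y' : ℕ, y' = ⌊(X : ℝ) ^ (2 * η)⌋₊ := ⟨_, rfl⟩
    have hly' : ∀ l ∈ R, l ≤ y' := by
      intro l hl
      rw [hy']
      exact Nat.le_floor (hR l hl).2.2.2.1
    have hy'X : (y' : ℝ) ≤ (X : ℝ) ^ (2 * η) := by
      rw [hy']
      exact Nat.floor_le (by positivity)
    rw [← hN] at hps hom hNr hNpos hclK ⊢
    have hlN : ∀ l ∈ R, (l : ℝ) * N ≤ (X : ℝ) ^ (9 * η / 4) := by
      intro l hl
      calc (l : ℝ) * N ≤ (X : ℝ) ^ (2 * η) * (X : ℝ) ^ (η / 4) := by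
            apply mul_le_mul (hR l hl).2.2.2.1 hps (by positivity) (by positivity)
        _ = (X : ℝ) ^ (9 * η / 4) := by
            rw [← Real.rpow_add hX0]; congr 1; ring
    have hl3 : ∀ l ∈ R, 3 < l := by
      intro l hl
      obtain ⟨hlp, hl24, _⟩ := hR l hl
      have := hlp.one_lt
      omega
    have hExt : ∀ l ∈ G, cK * (1 / 2) ^ (N.primeFactors.card + 1) *
        ((X : ℝ) ^ 2 / (((l * N : ℕ) : ℝ) * Real.log X ^ 3)) ≤
        ((Ext X y' (upS s χ l) (upE E l (d l))).card : ℝ) := by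
      intro l hl
      rw [hG] at hl
      obtain ⟨hlR, hcln⟩ := mem_filter.1 hl
      obtain ⟨hlp, hl24, hlX, hlX2, hlT⟩ := hR l hlR
      have hcard : (∏ i, upS s χ l i).primeFactors.card = N.primeFactors.card + 1 := by
        rw [pf_upS hs hlp, card_insert_of_notMem, hN]
        intro hmem
        have := (bd_of_Tup hs hmem).2.2
        have := hyl l hlR
        omega
      have hpr : ∏ i, upS s χ l i = l * N := by rw [prod_upS, hN]
      have := hK y' (upS s χ l) (upE E l (d l)) (hy'X.trans (hmono (by rw [hη]; linarith)))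
        (upS_Tup hs hlp (hl3 l hlR) (hyl l hlR) (hly' l hlR) χ)
        (by
          rw [hpr]
          push_cast
          exact (hlN l hlR).trans (hmono (by rw [hη]; linarith)))
        (by
          rw [hcard]
          refine le_trans (le_of_eq ?_) hom
          ring)
        (by rw [hpr]; exact hcln) (hd l hlR)
      rw [hcard, hpr] at this
      exact this
    have hdisj : (↑G : Set ℕ).PairwiseDisjoint
        (fun l => Ext X y' (upS s χ l) (upE E l (d l))) := by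
      intro l hl l' hl' hne
      rw [hG, mem_coe, mem_filter] at hl hl'
      exact Ext_disj hs (hR l hl.1).1 (hyl l hl.1) (hly' l hl.1) (hR l' hl'.1).1 hne χ E _ _
    have hcount : ∑ l ∈ G, (Ext X y' (upS s χ l) (upE E l (d l))).card ≤ (Ext X y s E).card := by
      rw [← card_biUnion hdisj]
      apply card_le_card
      intro t ht
      obtain ⟨l, hl, ht⟩ := mem_biUnion.1 ht
      rw [hG, mem_filter] at hl
      exact Ext_up hs (hR l hl.1).1 (hyl l hl.1) (hly' l hl.1) χ E _ ht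
    -- the sum over the good primes
    have hbad : ∑ l ∈ R.filter (fun l => ¬ Cln DK (l * N)), 1 / (l : ℝ) ≤ 1 / 200 := by
      have hb1 : (R.filter (fun l => ¬ Cln DK (l * N))).card ≤
          (DK.filter (fun e => e ≤ ⌊(X : ℝ) ^ (9 * η / 4)⌋₊)).card := by
        refine bad_card hNpos hclK R (fun l hl => ⟨(hR l hl).1, ?_, ?_⟩)
        · rw [hN]
          exact not_dvd_prod hs (hR l hl).1 (hyl l hl)
        · apply Nat.le_floor
          push_cast
          exact hlN l hl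
      have hb2 : ((DK.filter (fun e => e ≤ ⌊(X : ℝ) ^ (9 * η / 4)⌋₊)).card : ℝ) ≤
          (X : ℝ) ^ (η / 2) := by
        refine (hDK.2 _).trans ?_
        calc ((⌊(X : ℝ) ^ (9 * η / 4)⌋₊ : ℕ) : ℝ) ^ (ρ / 2) ≤
              ((X : ℝ) ^ (9 * η / 4)) ^ (ρ / 2) :=
              Real.rpow_le_rpow (Nat.cast_nonneg _) (Nat.floor_le (by positivity)) (by positivity)
          _ = (X : ℝ) ^ (9 * η / 4 * (ρ / 2)) := by rw [← Real.rpow_mul hX0.le]
          _ ≤ (X : ℝ) ^ (η / 2) := by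
              apply hmono
              nlinarith [mul_le_mul_of_nonneg_left hρ4 hη0.le]
      calc ∑ l ∈ R.filter (fun l => ¬ Cln DK (l * N)), 1 / (l : ℝ) ≤
            ∑ l ∈ R.filter (fun l => ¬ Cln DK (l * N)), (X : ℝ) ^ (-η) := by
              apply sum_le_sum
              intro l hl
              have := (hR l (mem_filter.1 hl).1).2.2.1
              rw [Real.rpow_neg hX0.le, one_div]
              exact inv_anti₀ (by positivity) this.le
        _ = ((R.filter (fun l => ¬ Cln DK (l * N))).card : ℝ) * (X : ℝ) ^ (-η) := by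
              rw [sum_const, nsmul_eq_mul]
        _ ≤ (X : ℝ) ^ (η / 2) * (X : ℝ) ^ (-η) := by
              apply mul_le_mul_of_nonneg_right _ (by positivity)
              exact (Nat.cast_le.2 hb1).trans hb2
        _ = (X : ℝ) ^ (-(η / 2)) := by
              rw [← Real.rpow_add hX0]; congr 1; ring
        _ ≤ 1 / 200 := hX200
    have hgood : 1 / 200 ≤ ∑ l ∈ G, 1 / (l : ℝ) := by
      have := sum_filter_add_sum_filter_not R (fun l => Cln DK (l * N)) (fun l => 1 / (l : ℝ))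
      rw [hG]
      linarith
    calc cK / 400 * (1 / 2) ^ N.primeFactors.card * ((X : ℝ) ^ 2 / ((N : ℝ) * Real.log X ^ 3)) =
          cK * (1 / 2) ^ (N.primeFactors.card + 1) *
            ((X : ℝ) ^ 2 / ((N : ℝ) * Real.log X ^ 3)) * (1 / 200) := by ring
      _ ≤ cK * (1 / 2) ^ (N.primeFactors.card + 1) *
            ((X : ℝ) ^ 2 / ((N : ℝ) * Real.log X ^ 3)) * ∑ l ∈ G, 1 / (l : ℝ) := by
          apply mul_le_mul_of_nonneg_left hgood
          positivity
      _ = ∑ l ∈ G, cK * (1 / 2) ^ (N.primeFactors.card + 1) *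
        ((X : ℝ) ^ 2 / (((l * N : ℕ) : ℝ) * Real.log X ^ 3)) := by
          rw [mul_sum]
          apply sum_congr rfl
          intro l hl
          rw [hG] at hl
          have hl0 : (l : ℝ) ≠ 0 := by
            exact_mod_cast (hR l (mem_filter.1 hl).1).1.ne_zero
          push_cast
          field_simp
      _ ≤ ∑ l ∈ G, ((Ext X y' (upS s χ l) (upE E l (d l))).card : ℝ) := sum_le_sum hExt
      _ ≤ ((Ext X y s E).card : ℝ) := by exact_mod_cast hcount

end Ind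

theorem ind_of (hST : S_STEER) (hEQ : S_EQ) (hAN : S_AN) : S_IND := by
  intro K
  induction K with
  | zero => exact fun ρ hρ _ => Ind.base hAN ρ hρ
  | succ K ih => exact fun ρ hρ hρ4 => Ind.step hST hEQ K ih ρ hρ hρ4

end Pool.Agent.L0h94.RZ
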